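import Pool.Agent.Helper44.SH.Pd

set_option autoImplicit false

namespace Pool.Agent.Results.MP_b53a41_al.FiniteProjectiveDimension

open CategoryTheory

/-- Over a left and right distributive domain `R`: (1), (2) a finitely generated left or right
ideal of finite projective dimension is projective; (3), (4) more generally, every finitely
generated left or right module of finite projective dimension that embeds in a finite free module
is projective. -/
theorem result :
    ∀ (R : Type) [Ring R] [IsDomain R],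
      (∀ a b c : Submodule R R, a ⊓ (b ⊔ c) = (a ⊓ b) ⊔ (a ⊓ c)) →
      (∀ a b c : Submodule Rᵐᵒᵖ R, a ⊓ (b ⊔ c) = (a ⊓ b) ⊔ (a ⊓ c)) →
      (∀ I : Submodule R R, I.FG → projectiveDimension (ModuleCat.of R I) ≠ ⊤ →
        Module.Projective R I) ∧
      (∀ I : Submodule Rᵐᵒᵖ R, I.FG → projectiveDimension (ModuleCat.of Rᵐᵒᵖ I) ≠ ⊤ →
        Module.Projective Rᵐᵒᵖ I) ∧
      (∀ (X : Type) [AddCommGroup X] [Module R X] [Module.Finite R X] (n : ℕ)
        (j : X →ₗ[R] (Fin n → R)), Function.Injective j →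
        projectiveDimension (ModuleCat.of R X) ≠ ⊤ → Module.Projective R X) ∧
      (∀ (X : Type) [AddCommGroup X] [Module Rᵐᵒᵖ X] [Module.Finite Rᵐᵒᵖ X] (n : ℕ)
        (j : X →ₗ[Rᵐᵒᵖ] (Fin n → R)), Function.Injective j →
        projectiveDimension (ModuleCat.of Rᵐᵒᵖ X) ≠ ⊤ → Module.Projective Rᵐᵒᵖ X) := by
  intro R _ _ hL hR
  have hl := Pool.Agent.H44SH.elemL R hL
  have hr := Pool.Agent.H44SH.elemR R hR
  have gl := Pool.Agent.H44SH.gd_of_elem R hl hr
  have gr := Pool.Agent.H44SH.gd_op R hl hr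
  have A : ∀ (X : Type) [AddCommGroup X] [Module R X] [Module.Finite R X] (n : ℕ)
      (j : X →ₗ[R] (Fin n → R)), Function.Injective j →
      projectiveDimension (ModuleCat.of R X) ≠ ⊤ → Module.Projective R X := by
    intro X _ _ _ n j hj h
    obtain ⟨d, hd⟩ := (projectiveDimension_ne_top_iff _).1 h
    exact Pool.Agent.H44SH.proj_of_pd gl d X n j hj hd
  have B : ∀ (X : Type) [AddCommGroup X] [Module Rᵐᵒᵖ X] [Module.Finite Rᵐᵒᵖ X] (n : ℕ)
      (j : X →ₗ[Rᵐᵒᵖ] (Fin n → R)), Function.Injective j →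
      projectiveDimension (ModuleCat.of Rᵐᵒᵖ X) ≠ ⊤ → Module.Projective Rᵐᵒᵖ X := by
    intro X _ _ _ n j hj h
    obtain ⟨d, hd⟩ := (projectiveDimension_ne_top_iff _).1 h
    exact Pool.Agent.H44SH.proj_of_pd gr d X n (Pool.Agent.H44SH.opEn R n ∘ₗ j)
      ((Pool.Agent.H44SH.opEn_inj R n).comp hj) hd
  refine ⟨?_, ?_, A, B⟩
  · intro I hI h
    haveI : Module.Finite R I := Module.Finite.iff_fg.2 hI
    exact A I 1 (LinearMap.pi fun _ => I.subtype) (fun x y hxy => Subtype.ext
      (congrFun hxy 0)) h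
  · intro I hI h
    haveI : Module.Finite Rᵐᵒᵖ I := Module.Finite.iff_fg.2 hI
    exact B I 1 (LinearMap.pi fun _ => I.subtype) (fun x y hxy => Subtype.ext
      (congrFun hxy 0)) h

end Pool.Agent.Results.MP_b53a41_al.FiniteProjectiveDimension
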